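import Pool.Agent.R349.SNDefs

/-!
# MP_d3d931_al, Q2

There is a semigroup which is left `2`-nilpotent and right `2`-nilpotent but not supernilpotent.
So the answer to Q2 is negative.

The higher commutators `comm`, the series `leftS`, `rightS` and `Supernilpotent` are the ones of
`Pool.Agent.R349.SNDefs`.

The semigroup `Q` is obtained from a subsemigroup `Q₀` of `L × ℕ³ × R`, with `L` a left zero band and
`R` a right zero band, by doubling one element `X`. The product `x y` of two elements of `Q` depends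
only on the images of `x` and `y` in `Q₀`; if it lies over `X` then the copy of `X` is determined by
the factorisation `X = x y` in `Q₀`.
-/

set_option autoImplicit false

namespace Pool.Agent.Results.MP_d3d931_al.NilpotentNotSuper

open Pool.Agent.R349.SN

/-- The underlying set of the example. -/
@[ext] structure Q where
  /-- the component in the left zero band -/
  f : Bool
  /-- first additive component -/
  a : ℕ
  /-- second additive component -/
  c : ℕ
  /-- third additive component -/
  n : ℕ
  /-- the component in the right zero band -/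
  l : Bool
  /-- the bit which distinguishes the two elements over `X = (true, 1, 1, 1, true)` -/
  bit : Bool
  h1 : n ≤ a + c
  h2 : f = true → 1 ≤ a
  h3 : l = true → 1 ≤ c
  h4 : bit = true → f = true ∧ a = 1 ∧ c = 1 ∧ n = 1 ∧ l = true

namespace Q

instance : Mul Q where
  mul x y :=
    { f := x.f
      a := x.a + y.a
      c := x.c + y.c
      n := x.n + y.n
      l := y.l
      bit := decide (x.f = true ∧ x.a + y.a = 1 ∧ x.c + y.c = 1 ∧ x.n + y.n = 1 ∧ y.l = true ∧ x.n = 1)
      h1 := by have := x.h1; have := y.h1; omega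
      h2 := fun h => by have := x.h2 h; omega
      h3 := fun h => by have := y.h3 h; omega
      h4 := fun h => by
        rw [decide_eq_true_iff] at h
        exact ⟨h.1, h.2.1, h.2.2.1, h.2.2.2.1, h.2.2.2.2.1⟩ }

@[simp] lemma mul_f (x y : Q) : (x * y).f = x.f := rfl
@[simp] lemma mul_a (x y : Q) : (x * y).a = x.a + y.a := rfl
@[simp] lemma mul_c (x y : Q) : (x * y).c = x.c + y.c := rfl
@[simp] lemma mul_n (x y : Q) : (x * y).n = x.n + y.n := rfl
@[simp] lemma mul_l (x y : Q) : (x * y).l = y.l := rfl
lemma mul_bit (x y : Q) : (x * y).bit =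
    decide (x.f = true ∧ x.a + y.a = 1 ∧ x.c + y.c = 1 ∧ x.n + y.n = 1 ∧ y.l = true ∧ x.n = 1) := rfl

instance : Semigroup Q where
  mul_assoc x y z := by
    apply Q.ext
    · rfl
    · simp [add_assoc]
    · simp [add_assoc]
    · simp [add_assoc]
    · rfl
    · rw [mul_bit, mul_bit, decide_eq_decide]
      simp only [mul_f, mul_a, mul_c, mul_n, mul_l]
      have hx1 := x.h1
      have hx2 := x.h2
      have hy1 := y.h1
      have hz3 := z.h3
      constructor
      · rintro ⟨k1, k2, k3, k4, k5, k6⟩
        have := hx2 k1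
        have := hz3 k5
        exact ⟨k1, by omega, by omega, by omega, k5, by omega⟩
      · rintro ⟨k1, k2, k3, k4, k5, k6⟩
        have := hx2 k1
        have := hz3 k5
        exact ⟨k1, by omega, by omega, by omega, k5, by omega⟩

/-- The kernel of the projection which forgets the bit. -/
def kap : Con Q where
  r x y := x.f = y.f ∧ x.a = y.a ∧ x.c = y.c ∧ x.n = y.n ∧ x.l = y.l
  iseqv := ⟨fun _ => ⟨rfl, rfl, rfl, rfl, rfl⟩,
    fun h => ⟨h.1.symm, h.2.1.symm, h.2.2.1.symm, h.2.2.2.1.symm, h.2.2.2.2.symm⟩,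
    fun h h' => ⟨h.1.trans h'.1, h.2.1.trans h'.2.1, h.2.2.1.trans h'.2.2.1,
      h.2.2.2.1.trans h'.2.2.2.1, h.2.2.2.2.trans h'.2.2.2.2⟩⟩
  mul' := by
    rintro w x y z ⟨a1, a2, a3, a4, a5⟩ ⟨b1, b2, b3, b4, b5⟩
    exact ⟨a1, by simp [a2, b2], by simp [a3, b3], by simp [a4, b4], b5⟩

lemma kap_iff (x y : Q) : kap x y ↔ x.f = y.f ∧ x.a = y.a ∧ x.c = y.c ∧ x.n = y.n ∧ x.l = y.l := Iff.rfl

/-- products depend only on the classes modulo `kap` -/
lemma mul_eq_of_kap {x x' y y' : Q} (h : kap x x') (h' : kap y y') : x * y = x' * y' := by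
  obtain ⟨a1, a2, a3, a4, a5⟩ := h
  obtain ⟨b1, b2, b3, b4, b5⟩ := h'
  apply Q.ext
  · exact a1
  · simp [a2, b2]
  · simp [a3, b3]
  · simp [a4, b4]
  · exact b5
  · rw [mul_bit, mul_bit, a1, a2, a3, a4, b2, b3, b4, b5]

/-- The quotient by `kap` is abelian. -/
lemma cen_top_top : Cen (fun _ : Fin 1 => (⊤ : Con Q)) ⊤ kap := by
  intro x hx
  have key : (∀ i : Fin 1 → Bool, ∀ i' : Fin 1 → Bool,
      ((x i false).f = (x i true).f → (x i' false).f = (x i' true).f) ∧
      ((x i false).l = (x i true).l → (x i' false).l = (x i' true).l) ∧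
      ((x i false).a + (x i' true).a = (x i true).a + (x i' false).a) ∧
      ((x i false).c + (x i' true).c = (x i true).c + (x i' false).c) ∧
      ((x i false).n + (x i' true).n = (x i true).n + (x i' false).n)) := by
    induction hx using Subsemigroup.closure_induction with
    | mem x hx =>
      intro i i'
      rcases hx with ⟨j, a, b, -, rfl⟩ | ⟨a, b, -, rfl⟩
      · exact ⟨fun _ => rfl, fun _ => rfl, rfl, rfl, rfl⟩
      · exact ⟨fun h => h, fun h => h, add_comm _ _, add_comm _ _, add_comm _ _⟩
    | mul x y _ _ ihx ihy =>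
      intro i i'
      obtain ⟨p1, p2, p3, p4, p5⟩ := ihx i i'
      obtain ⟨q1, q2, q3, q4, q5⟩ := ihy i i'
      refine ⟨p1, q2, ?_, ?_, ?_⟩
      · simp only [Pi.mul_apply, mul_a]; omega
      · simp only [Pi.mul_apply, mul_c]; omega
      · simp only [Pi.mul_apply, mul_n]; omega
  intro hrow
  have h0 : (fun _ : Fin 1 => false) ≠ (fun _ => true) := fun h => Bool.noConfusion (congrFun h 0)
  obtain ⟨r1, r2, r3, r4, r5⟩ := hrow _ h0
  obtain ⟨k1, k2, k3, k4, k5⟩ := key (fun _ => false) (fun _ => true)
  exact ⟨k1 r1, by omega, by omega, by omega, k2 r5⟩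

/-- `[1, kap] = 0` -/
lemma cen_top_kap : Cen (fun _ : Fin 1 => (⊤ : Con Q)) kap ⊥ := by
  intro x hx
  have key : (∀ i, kap (x i false) (x i true)) ∧
      ((∀ i, x i false = x i true) ∨ ∀ i i', ∀ j, x i j = x i' j) := by
    induction hx using Subsemigroup.closure_induction with
    | mem x hx =>
      rcases hx with ⟨j, a, b, -, rfl⟩ | ⟨a, b, hab, rfl⟩
      · exact ⟨fun i => kap.refl _, Or.inl fun i => rfl⟩
      · exact ⟨fun i => hab, Or.inr fun i i' j => rfl⟩
    | mul x y _ _ ihx ihy =>
      exact ⟨fun i => kap.mul (ihx.1 i) (ihy.1 i), Or.inl fun i => mul_eq_of_kap (ihx.1 i) (ihy.1 i)⟩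
  intro hrow
  have h0 : (fun _ : Fin 1 => false) ≠ (fun _ => true) := fun h => Bool.noConfusion (congrFun h 0)
  have h1 : x (fun _ => false) false = x (fun _ => false) true := hrow _ h0
  show x (fun _ => true) false = x (fun _ => true) true
  rcases key.2 with h | h
  · exact h _
  · rw [h (fun _ => true) (fun _ => false), h (fun _ => true) (fun _ => false), h1]

/-- `[kap, 1] = 0` -/
lemma cen_kap_top : Cen (fun _ : Fin 1 => kap) (⊤ : Con Q) ⊥ := by
  intro x hx
  have key : (∀ i i' j, kap (x i j) (x i' j)) ∧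
      ((∀ i, x i false = x i true) ∨ ∀ i i', ∀ j, x i j = x i' j) := by
    induction hx using Subsemigroup.closure_induction with
    | mem x hx =>
      rcases hx with ⟨j, a, b, hab, rfl⟩ | ⟨a, b, -, rfl⟩
      · refine ⟨fun i i' _ => ?_, Or.inl fun i => rfl⟩
        simp only
        split_ifs
        · exact kap.refl _
        · exact kap.symm hab
        · exact hab
        · exact kap.refl _
      · exact ⟨fun i i' j => kap.refl _, Or.inr fun i i' j => rfl⟩
    | mul x y _ _ ihx ihy =>
      exact ⟨fun i i' j => kap.mul (ihx.1 i i' j) (ihy.1 i i' j),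
        Or.inr fun i i' j => mul_eq_of_kap (ihx.1 i i' j) (ihy.1 i i' j)⟩
  intro hrow
  have h0 : (fun _ : Fin 1 => false) ≠ (fun _ => true) := fun h => Bool.noConfusion (congrFun h 0)
  have h1 : x (fun _ => false) false = x (fun _ => false) true := hrow _ h0
  show x (fun _ => true) false = x (fun _ => true) true
  rcases key.2 with h | h
  · exact h _
  · rw [h (fun _ => true) (fun _ => false), h (fun _ => true) (fun _ => false), h1]

lemma leftS_two : leftS Q 2 = ⊥ := by
  rw [eq_bot_iff]
  have h1 : leftS Q 1 ≤ kap := comm_le cen_top_top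
  exact leftS_step h1 cen_top_kap

lemma rightS_two : rightS Q 2 = ⊥ := by
  rw [eq_bot_iff]
  have h1 : rightS Q 1 ≤ kap := comm_le cen_top_top
  exact rightS_step h1 cen_kap_top

/-- the letters -/
def c1 : Q := ⟨true, 1, 0, 1, false, false, by decide, by decide, by decide, by decide⟩
/-- the letters -/
def d1 : Q := ⟨true, 1, 0, 0, false, false, by decide, by decide, by decide, by decide⟩
/-- the letters -/
def c2 : Q := ⟨false, 0, 1, 0, true, false, by decide, by decide, by decide, by decide⟩
/-- the letters -/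
def d2 : Q := ⟨false, 0, 1, 1, true, false, by decide, by decide, by decide, by decide⟩
/-- the letters -/
def v : Q := ⟨false, 0, 0, 0, false, false, by decide, by decide, by decide, by decide⟩

/-- the generating matrix whose rows depend on the coordinate `i` -/
def rowGen {m : ℕ} (i : Fin m) : Mat m Q := fun ε _ => if ε i = true then v else d1

/-- first `k` factors: `c1` or `d1`, followed by `k` letters depending on the row -/
def pre (m : ℕ) : (k : ℕ) → k ≤ m → Mat m Q
  | 0, _ => fun _ j => if j = true then d1 else c1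
  | k + 1, h => pre m k (Nat.le_of_succ_le h) * rowGen (⟨k, h⟩ : Fin m)

lemma pre_mem (m : ℕ) : ∀ (k : ℕ) (h : k ≤ m), pre m k h ∈ MM (S := Q) (fun _ : Fin m => ⊤) ⊤ := by
  intro k
  induction k with
  | zero =>
    intro h
    exact Subsemigroup.subset_closure (Or.inr ⟨c1, d1, trivial, rfl⟩)
  | succ k ih =>
    intro h
    refine (MM _ _).mul_mem (ih _) ?_
    exact Subsemigroup.subset_closure (Or.inl ⟨⟨k, h⟩, d1, v, trivial, rfl⟩)

lemma pre_spec (m : ℕ) : ∀ (k : ℕ) (h : k ≤ m) (ε : Fin m → Bool),
    (∀ j, (pre m k h ε j).f = true ∧ (pre m k h ε j).c = 0 ∧ (pre m k h ε j).l = false) ∧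
    (pre m k h ε false).n = 1 ∧ (pre m k h ε true).n = 0 ∧
    (pre m k h ε false).a = (pre m k h ε true).a ∧
    1 ≤ (pre m k h ε true).a ∧
    ((∀ i : Fin m, (i : ℕ) < k → ε i = true) → (pre m k h ε true).a = 1) ∧
    ((∃ i : Fin m, (i : ℕ) < k ∧ ε i = false) → 2 ≤ (pre m k h ε true).a) := by
  intro k
  induction k with
  | zero =>
    intro h ε
    refine ⟨?_, rfl, rfl, rfl, le_refl _, fun _ => rfl, ?_⟩
    · intro j
      cases j <;> exact ⟨rfl, rfl, rfl⟩
    · rintro ⟨i, hi, -⟩
      exact absurd hi (Nat.not_lt_zero _)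
  | succ k ih =>
    intro h ε
    obtain ⟨i1, i2, i3, i4, i5, i6, i7⟩ := ih (Nat.le_of_succ_le h) ε
    have hstep : ∀ j, pre m (k + 1) h ε j = pre m k (Nat.le_of_succ_le h) ε j * (if ε ⟨k, h⟩ = true then v else d1) :=
      fun j => rfl
    have e1 : ∀ b : Bool, (if b = true then v else d1).f = !b := by intro b; cases b <;> rfl
    have e2 : ∀ b : Bool, (if b = true then v else d1).c = 0 := by intro b; cases b <;> rfl
    have e3 : ∀ b : Bool, (if b = true then v else d1).l = false := by intro b; cases b <;> rfl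
    have e4 : ∀ b : Bool, (if b = true then v else d1).n = 0 := by intro b; cases b <;> rfl
    have e5 : (if true = true then v else d1).a = 0 := rfl
    have e6 : (if false = true then v else d1).a = 1 := rfl
    refine ⟨?_, ?_, ?_, ?_, ?_, ?_, ?_⟩
    · intro j
      rw [hstep]
      simp only [mul_f, mul_c, mul_l]
      refine ⟨(i1 j).1, ?_, e3 _⟩
      rw [(i1 j).2.1, e2]
    · rw [hstep]; simp only [mul_n]; rw [i2, e4]
    · rw [hstep]; simp only [mul_n]; rw [i3, e4]
    · rw [hstep, hstep]; simp only [mul_a]; rw [i4]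
    · rw [hstep]; simp only [mul_a]; omega
    · intro hall
      rw [hstep]; simp only [mul_a]
      rw [i6 (fun i hi => hall i (Nat.lt_succ_of_lt hi)), hall ⟨k, h⟩ (Nat.lt_succ_self k)]
      rfl
    · rintro ⟨i, hi, hi2⟩
      rw [hstep]; simp only [mul_a]
      rcases Nat.lt_succ_iff_lt_or_eq.mp hi with hlt | heq
      · have := i7 ⟨i, hlt, hi2⟩
        omega
      · have hik : (⟨k, h⟩ : Fin m) = i := Fin.ext heq.symm
        rw [hik, hi2, e6]
        omega

/-- `Q` is not `d`-supernilpotent, for any `d`. -/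
lemma not_super (d : ℕ) : ¬ Supernilpotent Q d := by
  rw [supernilpotent_iff]
  intro hTC
  set last : Mat d Q := fun _ j => if j = true then d2 else c2 with hlast
  have hmem : pre d d (le_refl d) * last ∈ MM (S := Q) (fun _ : Fin d => ⊤) ⊤ :=
    (MM _ _).mul_mem (pre_mem d d _) (Subsemigroup.subset_closure (Or.inr ⟨c2, d2, trivial, rfl⟩))
  have hval0 : ∀ ε, (pre d d (le_refl d) * last) ε false = pre d d (le_refl d) ε false * c2 := fun _ => rfl
  have hval1 : ∀ ε, (pre d d (le_refl d) * last) ε true = pre d d (le_refl d) ε true * d2 := fun _ => rfl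
  have h := hTC _ hmem ?_
  · rw [hval0, hval1] at h
    obtain ⟨s1, s2, s3, s4, s5, s6, s7⟩ := pre_spec d d (le_refl d) (fun _ => true)
    have hb := congrArg Q.bit h
    rw [mul_bit, mul_bit, decide_eq_decide] at hb
    have hne := (hb.mp ⟨(s1 false).1, by rw [s4, s6 (fun _ _ => rfl)]; rfl,
      by rw [(s1 false).2.1]; rfl, by rw [s2]; rfl, rfl, s2⟩).2.2.2.2.2
    rw [s3] at hne
    exact absurd hne (by decide)
  · intro ε hε
    rw [hval0, hval1]
    obtain ⟨s1, s2, s3, s4, s5, s6, s7⟩ := pre_spec d d (le_refl d) ε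
    have hex : ∃ i : Fin d, (i : ℕ) < d ∧ ε i = false := by
      by_contra hcon
      push Not at hcon
      apply hε
      funext i
      have := hcon i i.2
      simpa using this
    have h2 := s7 hex
    apply Q.ext
    · simp only [mul_f]; rw [(s1 false).1, (s1 true).1]
    · simp only [mul_a]; rw [s4]; rfl
    · simp only [mul_c]; rw [(s1 false).2.1, (s1 true).2.1]; rfl
    · simp only [mul_n]; rw [s2, s3]; rfl
    · rfl
    · rw [mul_bit, mul_bit, decide_eq_decide]
      constructor
      · rintro ⟨-, k2, -⟩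
        exfalso
        rw [s4] at k2
        omega
      · rintro ⟨-, k2, -⟩
        exfalso
        omega

end Q

/-- **Q2 of MP_d3d931_al.** There is a semigroup which is left `2`-nilpotent and right `2`-nilpotent,
but which is not `d`-supernilpotent for any `d`. -/
theorem result : ∃ (S : Type) (_ : Semigroup S), leftS S 2 = ⊥ ∧ rightS S 2 = ⊥ ∧
    ∀ d : ℕ, ¬ Supernilpotent S d :=
  ⟨Q, inferInstance, Q.leftS_two, Q.rightS_two, Q.not_super⟩

end Pool.Agent.Results.MP_d3d931_al.NilpotentNotSuper
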